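import Mathlib
import Pool.Agent.X7.TriBridge

/-!
# MP_d6a58d_co: half-integral rational triangle decompositions of planar multigraphs
-/

set_option autoImplicit false
set_option maxHeartbeats 4000000
set_option linter.unusedSectionVars false

namespace Pool.Agent.Results.MP_d6a58d_co.HalfIntegral

open Finset Pool.Agent.X7.TriHalf

/-- A loopless multigraph with vertices `V` and edges `E`; parallel edges are allowed. -/
structure Multigraph (V E : Type) where
  /-- the two ends of an edge -/
  ends : E → Sym2 V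
  loopless : ∀ e, ¬ (ends e).IsDiag

namespace Multigraph

variable {V E : Type} [DecidableEq E] (G : Multigraph V E)

/-- The underlying simple graph. -/
def simple : SimpleGraph V := SimpleGraph.fromEdgeSet (Set.range G.ends)

/-- Three distinct vertices `u, v, w` and one chosen edge between each two of them, recorded as
the set of the three chosen edges. -/
def IsTriangle (τ : Finset E) : Prop :=
  ∃ u v w : V, u ≠ v ∧ v ≠ w ∧ w ≠ u ∧ ∃ a b c : E, G.ends a = s(u, v) ∧ G.ends b = s(v, w) ∧
    G.ends c = s(w, u) ∧ τ = {a, b, c}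

open Classical in
/-- Rational decomposition into triangles. -/
structure IsDecomposition [Fintype E] (wt : Finset E → ℚ) : Prop where
  nonneg : ∀ τ, G.IsTriangle τ → 0 ≤ wt τ
  sum_eq_one : ∀ e : E,
    ∑ τ ∈ (univ : Finset (Finset E)).filter (fun τ => G.IsTriangle τ ∧ e ∈ τ), wt τ = 1

variable {G}

lemma mem_edgeSet (e : Sym2 V) : e ∈ G.simple.edgeSet ↔ ∃ a, G.ends a = e := by
  unfold simple
  rw [SimpleGraph.edgeSet_fromEdgeSet]
  constructor
  · rintro ⟨⟨a, ha⟩, -⟩
    exact ⟨a, ha⟩
  · rintro ⟨a, ha⟩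
    refine ⟨⟨a, ha⟩, ?_⟩
    intro h
    rw [← ha] at h
    exact G.loopless a h

lemma adj_iff (u v : V) : G.simple.Adj u v ↔ ∃ a, G.ends a = s(u, v) := by
  rw [← mem_edgeSet]; exact Iff.rfl

lemma IsTriangle.isTri [DecidableEq V] {τ : Finset E} (h : G.IsTriangle τ) :
    IsTri G.simple (τ.image G.ends) := by
  obtain ⟨u, v, w, h1, h2, h3, a, b, c, ha, hb, hc, rfl⟩ := h
  refine ⟨u, v, w, (adj_iff _ _).2 ⟨a, ha⟩, (adj_iff _ _).2 ⟨b, hb⟩, (adj_iff _ _).2 ⟨c, hc⟩, ?_⟩
  rw [image_insert, image_insert, image_singleton, ha, hb, hc]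

lemma IsTriangle.injOn {τ : Finset E} (h : G.IsTriangle τ) :
    ∀ a ∈ τ, ∀ b ∈ τ, G.ends a = G.ends b → a = b := by
  classical
  obtain ⟨u, v, w, h1, h2, h3, a, b, c, ha, hb, hc, rfl⟩ := h
  obtain ⟨n1, n2, n3⟩ := IsTri.ne (H := (⊤ : SimpleGraph V)) (u := u) (v := v) (w := w) h1 h2 h3
  rw [← ha, ← hb, ← hc] at *
  intro x hx y hy hxy
  simp only [mem_insert, mem_singleton] at hx hy
  rcases hx with rfl | rfl | rfl <;> rcases hy with rfl | rfl | rfl <;>
    first
      | rfl
      | exact absurd hxy n1
      | exact absurd hxy n2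
      | exact absurd hxy n3
      | exact absurd hxy.symm n1
      | exact absurd hxy.symm n2
      | exact absurd hxy.symm n3

end Multigraph

open Multigraph

/-- Every rationally triangle-decomposable planar multigraph has a rational triangle decomposition
with all weights in `{0, 1/2, 1}`. -/
theorem result (V E : Type) [Fintype V] [Fintype E] [DecidableEq E] (G : Multigraph V E)
    (hpl : H279R3.PlanarGraph G.simple) (hdec : ∃ wt : Finset E → ℚ, G.IsDecomposition wt) :
    ∃ wt : Finset E → ℚ, G.IsDecomposition wt ∧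
      ∀ τ, G.IsTriangle τ → wt τ = 0 ∨ wt τ = 1 / 2 ∨ wt τ = 1 := by
  classical
  rcases isEmpty_or_nonempty E with hE | hE
  · refine ⟨fun _ => 0, ⟨fun _ _ => le_refl _, fun e => isEmptyElim e⟩, fun _ _ => Or.inl rfl⟩
  obtain ⟨wt, hwt⟩ := hdec
  -- the induced weights on the triangles of the simple graph
  obtain ⟨n, hn0, hn⟩ := simple_half G.simple hpl
    (fun e => ((univ : Finset E).filter (fun a => G.ends a = e)).card)
    ((univ : Finset (Finset (Sym2 V))).filter (fun T => IsTri G.simple T))
    (fun T hT => (mem_filter.1 hT).2)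
    (fun T => ∑ τ ∈ (univ : Finset (Finset E)).filter
      (fun τ => G.IsTriangle τ ∧ τ.image G.ends = T), wt τ)
    (fun T _ => sum_nonneg fun τ hτ => hwt.nonneg τ (mem_filter.1 hτ).2.1)
    (by
      intro e he
      have e1 : ∑ T ∈ ((univ : Finset (Finset (Sym2 V))).filter
          (fun T => IsTri G.simple T)).filter (fun T => e ∈ T),
          ∑ τ ∈ (univ : Finset (Finset E)).filter
            (fun τ => G.IsTriangle τ ∧ τ.image G.ends = T), wt τ =
          ∑ τ ∈ (univ : Finset (Finset E)).filter
            (fun τ => G.IsTriangle τ ∧ e ∈ τ.image G.ends), wt τ := by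
        rw [← sum_fiberwise_of_maps_to (s := (univ : Finset (Finset E)).filter
            (fun τ => G.IsTriangle τ ∧ e ∈ τ.image G.ends))
            (t := ((univ : Finset (Finset (Sym2 V))).filter
              (fun T => IsTri G.simple T)).filter (fun T => e ∈ T))
            (g := fun τ => τ.image G.ends) (by
              intro τ hτ
              rw [mem_filter] at hτ
              rw [mem_filter, mem_filter]
              exact ⟨⟨mem_univ _, hτ.2.1.isTri⟩, hτ.2.2⟩)]
        apply sum_congr rfl
        intro T hT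
        rw [mem_filter] at hT
        apply sum_congr _ fun _ _ => rfl
        ext τ
        simp only [mem_filter, mem_univ, true_and]
        constructor
        · rintro ⟨h1, h2⟩
          exact ⟨⟨h1, h2 ▸ hT.2⟩, h2⟩
        · rintro ⟨⟨h1, -⟩, h2⟩
          exact ⟨h1, h2⟩
      rw [e1]
      have e2 : ∀ τ ∈ (univ : Finset (Finset E)).filter (fun τ => G.IsTriangle τ),
          (if e ∈ τ.image G.ends then wt τ else 0) =
          ∑ a ∈ (univ : Finset E).filter (fun a => G.ends a = e), if a ∈ τ then wt τ else 0 := by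
        intro τ hτ
        have hτ' := (mem_filter.1 hτ).2
        split_ifs with h1
        · rw [mem_image] at h1
          obtain ⟨a, ha, hae⟩ := h1
          rw [sum_eq_single a]
          · rw [if_pos ha]
          · intro a' ha' hne
            rw [mem_filter] at ha'
            rw [if_neg]
            intro h2
            exact hne (hτ'.injOn a' h2 a ha (by rw [ha'.2, hae]))
          · intro h2
            exact absurd (mem_filter.2 ⟨mem_univ _, hae⟩ :
              a ∈ (univ : Finset E).filter (fun a => G.ends a = e)) h2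
        · symm
          apply sum_eq_zero
          intro a ha
          rw [if_neg]
          intro h2
          apply h1
          rw [mem_image]
          exact ⟨a, h2, (mem_filter.1 ha).2⟩
      have e3 : ∑ τ ∈ (univ : Finset (Finset E)).filter
            (fun τ => G.IsTriangle τ ∧ e ∈ τ.image G.ends), wt τ =
          ∑ τ ∈ (univ : Finset (Finset E)).filter (fun τ => G.IsTriangle τ),
            (if e ∈ τ.image G.ends then wt τ else 0) := by
        rw [← sum_filter, filter_filter]
      rw [e3, sum_congr rfl e2, sum_comm, card_eq_sum_ones]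
      push_cast
      apply sum_congr rfl
      intro a _
      rw [← sum_filter, filter_filter]
      exact hwt.sum_eq_one a)
  have hn0' : ∀ T, 0 < n T → IsTri G.simple T := by
    intro T hT
    by_contra hc
    rw [hn0 T (by rw [mem_filter]; tauto)] at hT
    exact lt_irrefl _ hT
  -- copies
  let C := Σ T : Finset (Sym2 V), Fin (n T)
  have htri : ∀ c : C, IsTri G.simple c.1 := fun c => hn0' _ (Nat.pos_of_ne_zero fun h => by
    have := c.2.isLt
    omega)
  have hcard : ∀ e : Sym2 V, ((univ : Finset C).filter (fun c => e ∈ c.1)).card =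
      ∑ T ∈ univ.filter (fun T => e ∈ T), n T := by
    intro e
    have e1 : (univ : Finset C).filter (fun c => e ∈ c.1) =
        ((univ : Finset (Finset (Sym2 V))).filter (fun T => e ∈ T)).sigma (fun T => univ) := by
      ext c
      rw [mem_filter, mem_sigma, mem_filter]
      simp
    rw [e1, card_sigma]
    apply sum_congr rfl
    intro T _
    rw [card_univ, Fintype.card_fin]
  have hex : ∀ e : Sym2 V, ∃ f : C → E, e ∈ G.simple.edgeSet →
      (∀ c : C, e ∈ c.1 → G.ends (f c) = e) ∧
      ∀ a, G.ends a = e → ((univ : Finset C).filter (fun c => e ∈ c.1 ∧ f c = a)).card = 2 := by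
    intro e
    by_cases he : e ∈ G.simple.edgeSet
    · obtain ⟨f, h1, h2⟩ := two_to_one ((univ : Finset C).filter (fun c => e ∈ c.1))
        ((univ : Finset E).filter (fun a => G.ends a = e)) (by rw [hcard, hn e he])
      refine ⟨f, fun _ => ⟨?_, ?_⟩⟩
      · intro c hc
        exact (mem_filter.1 (h1 c (mem_filter.2 ⟨mem_univ _, hc⟩))).2
      · intro a ha
        rw [← h2 a (mem_filter.2 ⟨mem_univ _, ha⟩), filter_filter]
    · exact ⟨fun _ => Classical.arbitrary E, fun h => absurd h he⟩
  choose f hf using hex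
  let lift : C → Finset E := fun c => c.1.image (fun e => f e c)
  have hlift : ∀ c : C, G.IsTriangle (lift c) := by
    intro c
    obtain ⟨u, v, w, h1, h2, h3, hT⟩ := htri c
    refine ⟨u, v, w, h1.ne, h2.ne, h3.ne, f s(u, v) c, f s(v, w) c, f s(w, u) c,
      (hf s(u, v) h1).1 c (by rw [hT]; simp), (hf s(v, w) h2).1 c (by rw [hT]; simp),
      (hf s(w, u) h3).1 c (by rw [hT]; simp), ?_⟩
    change c.1.image (fun e => f e c) = _
    rw [hT, image_insert, image_insert, image_singleton]
  have hmem : ∀ (c : C) (a : E), a ∈ lift c ↔ G.ends a ∈ c.1 ∧ f (G.ends a) c = a := by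
    intro c a
    change a ∈ c.1.image (fun e => f e c) ↔ _
    rw [mem_image]
    constructor
    · rintro ⟨e, he, hea⟩
      have h1 := (hf e ((htri c).mem_edge he)).1 c he
      rw [hea] at h1
      rw [h1]
      exact ⟨he, hea⟩
    · rintro ⟨h1, h2⟩
      exact ⟨_, h1, h2⟩
  have htwo : ∀ a : E, ((univ : Finset C).filter (fun c => a ∈ lift c)).card = 2 := by
    intro a
    rw [← (hf (G.ends a) ((mem_edgeSet _).2 ⟨a, rfl⟩)).2 a rfl]
    congr 1
    ext c
    simp only [mem_filter, mem_univ, true_and, hmem]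
  obtain ⟨k, hk⟩ : ∃ k : Finset E → ℕ,
      ∀ τ, k τ = ((univ : Finset C).filter (fun c => lift c = τ)).card := ⟨_, fun _ => rfl⟩
  have hsum : ∀ a : E, ∑ τ ∈ (univ : Finset (Finset E)).filter
      (fun τ => G.IsTriangle τ ∧ a ∈ τ), k τ = 2 := by
    intro a
    rw [← htwo a]
    rw [card_eq_sum_card_fiberwise (f := lift) (t := (univ : Finset (Finset E)).filter
      (fun τ => G.IsTriangle τ ∧ a ∈ τ)) (by
        intro c hc
        have hc' := (mem_filter.1 (mem_coe.1 hc)).2
        exact mem_coe.2 (mem_filter.2 ⟨mem_univ _, hlift c, hc'⟩))]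
    apply sum_congr rfl
    intro τ hτ
    rw [hk, filter_filter]
    congr 1
    ext c
    simp only [mem_filter, mem_univ, true_and]
    constructor
    · intro h
      exact ⟨h ▸ (mem_filter.1 hτ).2.2, h⟩
    · exact fun h => h.2
  refine ⟨fun τ => (k τ : ℚ) / 2, ⟨fun τ _ => by positivity, ?_⟩, ?_⟩
  · intro a
    rw [← sum_div]
    have := hsum a
    have h2 : ((∑ τ ∈ (univ : Finset (Finset E)).filter
      (fun τ => G.IsTriangle τ ∧ a ∈ τ), k τ : ℕ) : ℚ) = 2 := by exact_mod_cast this
    rw [Nat.cast_sum] at h2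
    rw [h2]
    norm_num
  · intro τ hτ
    obtain ⟨u, v, w, h1, h2, h3, a, b, c, ha, hb, hc, rfl⟩ := id hτ
    have h4 : k {a, b, c} ≤ 2 := by
      rw [← hsum a]
      exact single_le_sum (f := k) (fun _ _ => Nat.zero_le _)
        (mem_filter.2 ⟨mem_univ _, hτ, by simp⟩)
    obtain ⟨m, hm⟩ : ∃ m, m = k {a, b, c} := ⟨_, rfl⟩
    rw [← hm] at h4
    change ((k {a, b, c} : ℕ) : ℚ) / 2 = 0 ∨ ((k {a, b, c} : ℕ) : ℚ) / 2 = 1 / 2 ∨
      ((k {a, b, c} : ℕ) : ℚ) / 2 = 1
    rw [← hm]
    interval_cases m <;> norm_num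

end Pool.Agent.Results.MP_d6a58d_co.HalfIntegral
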